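import Pool.Agent.H92.RR.All

/-!
# MP_34b97f_an: random multiplicative functions with values in `[-1,1]`

Let `f : ℕ → [-1,1]` be a random multiplicative function: the restrictions of `f` to the powers of
the different primes are independent, and their laws are arbitrary. Put
`w(p) = 1 - |E f(p)|`.

* If `∑ w(p) / p = ∞`, then almost surely `f` has a Furstenberg system as predicted by Q1.
* If for some `δ > 0` the sum of `w(p) / p` over the primes `(log log N)^(1+δ) < p ≤ N` tends to
  infinity, then almost surely `f` is generic for such a system, and it is the only Furstenberg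
  system of `f`.

The predicted structure (`Pred`): the system is ergodic; it is the law of `(x_j e_j)`, where `x` has
the law of an odometer for which `|f|` is generic and the `e_j` are independent fair signs; and if
`f` has no zeros, then it is isomorphic to the product of a Bernoulli automorphism and an odometer.
-/

open MeasureTheory ProbabilityTheory Filter Topology Finset
open Pool.Agent.H89.MT Pool.Agent.H92.RR

universe u

theorem Pool.Agent.Results.MP_34b97f_an.RandomReal.result
    {Ω : Type u} [MeasurableSpace Ω] (P : Measure Ω) [IsProbabilityMeasure P]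
    (f : Ω → ℕ → I1) (hf : RandomReal P f) :
    (Tendsto (fun N : ℕ => ∑ p ∈ (Icc 1 N).filter Nat.Prime,
        (1 - |∫ ω, (f ω p : ℝ) ∂P|) / (p : ℝ)) atTop atTop →
      ∀ᵐ ω ∂P, ∃ κ : Measure X, Pred (f ω) κ ∧ QuasiGeneric (f ω) κ) ∧
    ∀ δ : ℝ, 0 < δ →
      (∀ K : ℝ, ∀ᶠ N : ℕ in atTop, K ≤ ∑ p ∈ (Icc 1 N).filter (fun p : ℕ => p.Prime ∧
          Real.log (Real.log N) ^ (1 + δ) < (p : ℝ)), (1 - |∫ ω, (f ω p : ℝ) ∂P|) / (p : ℝ)) →
      ∀ᵐ ω ∂P, ∃ κ : Measure X, Pred (f ω) κ ∧ Generic (f ω) κ ∧
        ∀ κ' : Measure X, QuasiGeneric (f ω) κ' ↔ κ' = κ :=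
  all_MAIN Ω P f hf
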